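import Pool.Agent.L7h10.AB.Stm2

set_option autoImplicit false

/-! Project AB (MP_cc3311_ag), one half of the part CB (helper63): the case `g b = 0`. -/

namespace Pool.Agent.L7h63.AB

open Polynomial Pool.Agent.L7h10.AB

theorem cofactor {K : Type} [Field K] {f l : K[X]} {b : K} {m : ℕ} (hf : f.Monic)
    (hd : f.natDegree = m + 1) (e : f = (X - C b) * l) : l.Monic ∧ l.natDegree = m := by
  have hl : l.Monic := (monic_X_sub_C b).of_mul_monic_left (e ▸ hf)
  refine ⟨hl, ?_⟩
  have h := (monic_X_sub_C b).natDegree_mul hl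
  rw [← e, hd, natDegree_X_sub_C] at h
  omega

theorem cb2 (hCARD : S_CARD) (K : Type) [Field K] [Finite K] (p : ℕ) [CharP K p] (n : ℕ)
    (hn : 6 ≤ n) (hp : n + 1 < p) :
    Nat.card {x : (K × Mon K (n - 2)) × (Mon K 2 × Mon K (n - 3)) //
      (X - C x.1.1) ^ 2 * x.1.2.1 = C ((n : K) + 1)⁻¹ * derivative (x.2.1.1 ^ 2 * x.2.2.1) ∧
        x.2.1.1.eval x.1.1 = 0} ≤ 2 * Nat.card K ^ (n - 2) := by
  classical
  have hc : ((n : K) + 1)⁻¹ ≠ 0 := by
    apply inv_ne_zero
    intro h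
    have h' : ((n + 1 : ℕ) : K) = 0 := by
      push_cast
      exact h
    rw [CharP.cast_eq_zero_iff K p] at h'
    exact absurd (Nat.le_of_dvd (by omega) h') (by omega)
  have h2 : (2 : K) ≠ 0 := by
    intro h
    have h' : ((2 : ℕ) : K) = 0 := by
      push_cast
      exact h
    rw [CharP.cast_eq_zero_iff K p] at h'
    exact absurd (Nat.le_of_dvd (by omega) h') (by omega)
  have f3 : Finite (Mon K (n - 3)) := (hCARD K (n - 3)).1
  have f4 : Finite (Mon K (n - 4)) := (hCARD K (n - 4)).1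
  let Φ : (K × Mon K (n - 3)) ⊕ (K × K × Mon K (n - 4)) → K × Mon K 2 × Mon K (n - 3) := fun y =>
    match y with
    | .inl (b, h) => (b, ⟨(X - C b) ^ 2, (monic_X_sub_C b).pow 2, by
        rw [natDegree_pow, natDegree_X_sub_C]⟩, h)
    | .inr (b, b', h) => (b, ⟨(X - C b) * (X - C b'), (monic_X_sub_C b).mul (monic_X_sub_C b'), by
        rw [(monic_X_sub_C b).natDegree_mul (monic_X_sub_C b'), natDegree_X_sub_C,
          natDegree_X_sub_C]⟩, ⟨(X - C b) * h.1, (monic_X_sub_C b).mul h.2.1, by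
        rw [(monic_X_sub_C b).natDegree_mul h.2.1, natDegree_X_sub_C, h.2.2]
        omega⟩)
  have key : ∀ x : {x : (K × Mon K (n - 2)) × (Mon K 2 × Mon K (n - 3)) //
      (X - C x.1.1) ^ 2 * x.1.2.1 = C ((n : K) + 1)⁻¹ * derivative (x.2.1.1 ^ 2 * x.2.2.1) ∧
        x.2.1.1.eval x.1.1 = 0}, ∃ y, Φ y = (x.1.1.1, x.1.2.1, x.1.2.2) := by
    rintro ⟨⟨⟨b, k, hk⟩, ⟨g, hg, hgd⟩, ⟨h, hh, hhd⟩⟩, hE, hb⟩
    simp only at hE hb
    obtain ⟨l, hl⟩ := dvd_iff_isRoot.2 hb
    obtain ⟨lm, ld⟩ := cofactor hg hgd hl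
    have lX : l = X + C (l.coeff 0) := lm.eq_X_add_C ld
    have hd : derivative (g ^ 2 * h) = (X - C b) *
        (2 * l * (l + (X - C b) * derivative l) * h + (X - C b) * l ^ 2 * derivative h) := by
      rw [hl, derivative_mul, derivative_sq, derivative_mul, derivative_sub, derivative_X,
        derivative_C]
      have : (C (2 : K) : K[X]) = 2 := map_ofNat C 2
      rw [this]
      ring
    have E3 : (X - C b) * k = C ((n : K) + 1)⁻¹ *
        (2 * l * (l + (X - C b) * derivative l) * h + (X - C b) * l ^ 2 * derivative h) := by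
      apply mul_left_cancel₀ (X_sub_C_ne_zero b)
      calc (X - C b) * ((X - C b) * k) = (X - C b) ^ 2 * k := by ring
        _ = C ((n : K) + 1)⁻¹ * derivative (g ^ 2 * h) := hE
        _ = _ := by
          rw [hd]
          ring
    have E4 := congrArg (eval b) E3
    simp only [eval_mul, eval_sub, eval_X, eval_C, sub_self, zero_mul, eval_add, eval_ofNat,
      add_zero] at E4
    have E5 : l.eval b = 0 ∨ h.eval b = 0 := by
      by_contra hne
      push Not at hne
      exact (mul_ne_zero hc (mul_ne_zero (mul_ne_zero (mul_ne_zero h2 hne.1) hne.1) hne.2)) E4.symm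
    rcases E5 with E5 | E5
    · refine ⟨.inl (b, ⟨h, hh, hhd⟩), ?_⟩
      have e : l.coeff 0 = -b := by
        rw [lX] at E5
        simp only [eval_add, eval_X, eval_C] at E5
        linear_combination E5
      have eg : (X - C b) ^ 2 = g := by
        rw [hl, lX, e]
        simp only [map_neg]
        ring
      simp only [Φ]
      refine Prod.ext rfl (Prod.ext (Subtype.ext eg) rfl)
    · obtain ⟨h₁, hh₁⟩ := dvd_iff_isRoot.2 E5
      obtain ⟨m1, m2⟩ := cofactor (m := n - 4) hh (by rw [hhd]; omega) hh₁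
      refine ⟨.inr (b, -l.coeff 0, ⟨h₁, m1, m2⟩), ?_⟩
      have eg : (X - C b) * (X - C (-l.coeff 0)) = g := by
        rw [hl]
        conv_rhs => rw [lX]
        simp only [map_neg, sub_neg_eq_add]
      simp only [Φ]
      refine Prod.ext rfl (Prod.ext (Subtype.ext eg) (Subtype.ext hh₁.symm))
  choose ψ hψ using key
  have hinj : Function.Injective ψ := by
    intro x y hxy
    have e : ((x.1.1.1, x.1.2.1, x.1.2.2) : K × Mon K 2 × Mon K (n - 3)) =
        (y.1.1.1, y.1.2.1, y.1.2.2) := by rw [← hψ x, ← hψ y, hxy]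
    obtain ⟨⟨⟨b, k, hk⟩, g, h⟩, hE, hb⟩ := x
    obtain ⟨⟨⟨b', k', hk'⟩, g', h'⟩, hE', hb'⟩ := y
    simp only [Prod.mk.injEq] at e
    obtain ⟨rfl, rfl, rfl⟩ := e
    simp only at hE hE'
    have hkk : k = k' :=
      mul_left_cancel₀ (pow_ne_zero 2 (X_sub_C_ne_zero b)) (hE.trans hE'.symm)
    subst hkk
    rfl
  refine (Nat.card_le_card_of_injective ψ hinj).trans (le_of_eq ?_)
  rw [Nat.card_sum, Nat.card_prod, Nat.card_prod, Nat.card_prod, (hCARD K (n - 3)).2,
    (hCARD K (n - 4)).2]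
  have e1 : n - 2 = (n - 3) + 1 := by omega
  have e2 : n - 3 = (n - 4) + 1 := by omega
  rw [e1, e2]
  ring

end Pool.Agent.L7h63.AB
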