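import Pool.Agent.L7h10.AB.Stm2

set_option autoImplicit false

/-! Project AB (MP_cc3311_ag), part CARD (helper63). -/

namespace Pool.Agent.L7h63.AB

open Polynomial Pool.Agent.L7h10.AB

/-- monic polynomials of degree `m` and their coefficients -/
noncomputable def eMon (K : Type) [Field K] (m : ℕ) : Mon K m ≃ (Fin m → K) :=
  (monicEquivDegreeLT m).trans (degreeLTEquiv K m).toEquiv

theorem s_CARD : S_CARD := by
  intro K _ _ m
  refine ⟨Finite.of_equiv _ (eMon K m).symm, ?_⟩
  rw [Nat.card_congr (eMon K m), Nat.card_fun, Nat.card_eq_fintype_card (α := Fin m),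
    Fintype.card_fin]

end Pool.Agent.L7h63.AB
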