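import Pool.Agent.L7h10.AB.Stm

set_option autoImplicit false

/-! Project AB (MP_cc3311_ag), part CNTP (helper63): the numbers of parameters. -/

namespace Pool.Agent.L7h63.AB

open Finset Pool.Agent.L7h10.AB

theorem sum_two (K : Type) [Field K] [Fintype K] (A : K → K → Prop) (a b : ℕ)
    (h0 : ∀ _ : DecidablePred (A 0), (univ.filter (A 0)).card = a)
    (h1 : ∀ m : K, m ≠ 0 → ∀ _ : DecidablePred (A m), (univ.filter (A m)).card = b) :
    Nat.card {x : K × K // A x.1 x.2} = a + (Nat.card K - 1) * b := by
  classical
  rw [Nat.card_eq_fintype_card, Nat.card_eq_fintype_card, Fintype.card_subtype,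
    Finset.card_filter, Fintype.sum_prod_type]
  have h : ∀ m : K, (∑ e : K, if A (m, e).1 (m, e).2 then 1 else 0) = if m = 0 then a else b := by
    intro m
    rw [← Finset.card_filter]
    split_ifs with hm
    · subst hm
      exact h0 _
    · exact h1 m hm _
  have c1 : ∀ _ : DecidablePred (fun x : K => x = 0), (univ.filter fun x : K => x = 0).card = 1 := by
    intro _
    rw [Finset.card_eq_one]
    exact ⟨0, by ext x; simp⟩
  have c2 : ∀ _ : DecidablePred (fun x : K => ¬ x = 0),
      (univ.filter fun x : K => ¬ x = 0).card = Fintype.card K - 1 := by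
    intro _
    have e : (univ.filter fun x : K => ¬ x = 0) = univ.erase 0 := by
      ext x
      simp
    rw [e, Finset.card_erase_of_mem (Finset.mem_univ _), Finset.card_univ]
  rw [Finset.sum_congr rfl fun m _ => h m, Finset.sum_ite, Finset.sum_const, Finset.sum_const,
    c1, c2, smul_eq_mul, smul_eq_mul, one_mul]

theorem s_CNTP : S_CNTP := by
  classical
  intro K _ _ p _ hp
  have := Fintype.ofFinite K
  have hn : ∀ n : ℕ, 0 < n → n < p → (n : K) ≠ 0 := by
    intro n h0 h1 h
    rw [CharP.cast_eq_zero_iff K p n] at h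
    exact absurd (Nat.le_of_dvd h0 h) (by omega)
  have h2 : (2 : K) ≠ 0 := by exact_mod_cast hn 2 (by norm_num) (by omega)
  have h3 : (3 : K) ≠ 0 := by exact_mod_cast hn 3 (by norm_num) (by omega)
  have h5 : (5 : K) ≠ 0 := by exact_mod_cast hn 5 (by norm_num) (by omega)
  have h4 : (4 : K) ≠ 0 := by
    intro h
    apply mul_ne_zero h2 h2
    linear_combination h
  have h9 : (9 : K) ≠ 0 := by
    intro h
    apply mul_ne_zero h3 h3
    linear_combination h
  have hfour : ∀ m : K, m ≠ 0 → ({0, -4 * m ^ 2, 5 * m ^ 2, m ^ 2} : Finset K).card = 4 := by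
    intro m hm
    have hm2 : m ^ 2 ≠ 0 := pow_ne_zero 2 hm
    have a1 : (0 : K) ≠ -4 * m ^ 2 := by
      intro h
      apply mul_ne_zero h4 hm2
      linear_combination h
    have a2 : (0 : K) ≠ 5 * m ^ 2 := (mul_ne_zero h5 hm2).symm
    have a3 : -4 * m ^ 2 ≠ 5 * m ^ 2 := by
      intro h
      apply mul_ne_zero h9 hm2
      linear_combination -h
    have a4 : -4 * m ^ 2 ≠ m ^ 2 := by
      intro h
      apply mul_ne_zero h5 hm2
      linear_combination -h
    have a5 : 5 * m ^ 2 ≠ m ^ 2 := by
      intro h
      apply mul_ne_zero h4 hm2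
      linear_combination h
    rw [Finset.card_insert_of_notMem, Finset.card_insert_of_notMem,
      Finset.card_insert_of_notMem, Finset.card_singleton]
    · rw [Finset.mem_singleton]
      exact a5
    · rw [Finset.mem_insert, Finset.mem_singleton]
      exact fun h => h.elim a3 a4
    · rw [Finset.mem_insert, Finset.mem_insert, Finset.mem_singleton]
      exact fun h => h.elim a1 fun h => h.elim a2 hm2.symm
  have hq : 4 ≤ Fintype.card K := by
    rw [← hfour 1 one_ne_zero]
    exact Finset.card_le_univ _
  constructor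
  · rw [sum_two K (fun m e => Val m e ∧ e ≠ m ^ 2) (Fintype.card K - 1) (Fintype.card K - 4)]
    · rw [Nat.card_eq_fintype_card]
      obtain ⟨k, hk⟩ := Nat.exists_eq_add_of_le hq
      rw [hk]
      have e1 : 4 + k - 1 = k + 3 := by omega
      have e2 : 4 + k - 4 = k := by omega
      have e3 : 4 + k - 3 = k + 1 := by omega
      rw [e1, e2, e3]
      ring
    · intro _
      have e : (univ.filter fun e : K => Val 0 e ∧ e ≠ 0 ^ 2) = univ.erase 0 := by
        ext e
        simp [Val]
      rw [e, Finset.card_erase_of_mem (Finset.mem_univ _), Finset.card_univ]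
    · intro m hm _
      have e : (univ.filter fun e : K => Val m e ∧ e ≠ m ^ 2) =
          univ \ {0, -4 * m ^ 2, 5 * m ^ 2, m ^ 2} := by
        ext e
        rw [Finset.mem_filter]
        simp only [Val, Finset.mem_univ, true_and, Finset.mem_sdiff,
          Finset.mem_insert, Finset.mem_singleton]
        tauto
      rw [e, Finset.card_sdiff_of_subset (Finset.subset_univ _), Finset.card_univ, hfour m hm]
  · rw [sum_two K (fun u w => w ≠ u ^ 2 ∨ u = 0) (Fintype.card K) (Fintype.card K - 1)]
    · rw [Nat.card_eq_fintype_card]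
      obtain ⟨k, hk⟩ := Nat.exists_eq_add_of_le hq
      rw [hk]
      have e1 : 4 + k - 1 = k + 3 := by omega
      rw [e1]
      ring
    · intro _
      have e : (univ.filter fun w : K => w ≠ (0 : K) ^ 2 ∨ (0 : K) = 0) = univ := by
        ext e
        simp
      rw [e, Finset.card_univ]
    · intro m hm _
      have e : (univ.filter fun w : K => w ≠ m ^ 2 ∨ m = 0) = univ.erase (m ^ 2) := by
        ext e
        simp [hm]
      rw [e, Finset.card_erase_of_mem (Finset.mem_univ _), Finset.card_univ]

end Pool.Agent.L7h63.AB
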